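import Pool.Agent.X208.MX.Crit

/-! MP_6de631_nt (Q1, partial): joint packets of CM points for almost all twists, small exceptional sets. -/

set_option autoImplicit false

namespace Pool.Agent.Results.MP_6de631_nt.AlmostAllTwists

open Pool.Agent.X208.MX

theorem result : Twists := twists

end Pool.Agent.Results.MP_6de631_nt.AlmostAllTwists
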