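import Pool.Agent.X208.MX.Rep

/-! MP_6de631_nt (Q1, partial): the mixing conjecture for quotients bounds the number of exceptional twists. -/

set_option autoImplicit false

namespace Pool.Agent.Results.MP_6de631_nt.ExceptionalTwists

open Pool.Agent.X208.MX

theorem result : Repulsion := repulsion'

end Pool.Agent.Results.MP_6de631_nt.ExceptionalTwists
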